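import Pool.Agent.Q100.Chain.PGroup

set_option autoImplicit false

/-!
The alternating chain-count congruence for `p`-subgroups holds for every index set: for
`|G| = p^t n` with `p ∤ n`, `s ≤ t` and every nonempty `J ⊆ [0,s]`,
`∑_{∅ ≠ I ⊆ J} (-1)^(|I|+1) N(s-I) ≡ 1 (mod p^|J|)`.
-/

namespace Pool.Agent.Results.MP_3e56e8_al.AllIndexSets

open Pool.Agent.Q100.Chain
open scoped Pointwise

/-- `N(s-I)`: the number of families `(U_c)_{c ∈ I}` of subgroups of `G` with `|U_c| = p^(s-c)`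
and `U_c ≤ U_{c'}` whenever `c' ≤ c`; that is, the number of chains of subgroups of the orders
`p^(s-c)`, `c ∈ I`, in increasing order. -/
noncomputable def chainCount (G : Type) [Group G] (p s : ℕ) (I : Finset ℕ) : ℕ :=
  Nat.card {U : I → Subgroup G //
    (∀ c : I, Nat.card (U c) = p ^ (s - (c : ℕ))) ∧
    (∀ c c' : I, (c' : ℕ) ≤ (c : ℕ) → U c ≤ U c')}

/-- `S_J(G)`. -/
noncomputable def altSum (G : Type) [Group G] (p s : ℕ) (J : Finset ℕ) : ℤ :=
  ∑ I ∈ J.powerset.filter (fun I => I ≠ ∅), (-1) ^ (I.card + 1) * (chainCount G p s I : ℤ)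

section

variable {G : Type} [Group G] [Finite G]

omit [Finite G] in
theorem chainCount_eq (p s : ℕ) (I : Finset ℕ) : chainCount G p s I = NN p s I (⊤ : Subgroup G) := by
  rw [chainCount, NN]
  apply Nat.card_congr
  apply Equiv.subtypeEquivRight
  intro U
  constructor
  · rintro ⟨h1, h2⟩
    exact ⟨h1, h2, fun c => le_top⟩
  · rintro ⟨h1, h2, -⟩
    exact ⟨h1, h2⟩

omit [Finite G] in
theorem NN_conj (p s : ℕ) (I : Finset ℕ) (R : Subgroup G) (a : G) :
    NN p s I (MulAut.conj a • R) = NN p s I R := by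
  have key : ∀ (a : G) (R : Subgroup G) (U : I → Subgroup G), IsCh p s I R U →
      IsCh p s I (MulAut.conj a • R) (fun c => MulAut.conj a • U c) := by
    rintro a R U ⟨h1, h2, h3⟩
    refine ⟨fun c => ?_, fun c c' h => ?_, fun c => ?_⟩
    · rw [← h1 c]
      exact Nat.card_congr (Subgroup.equivSMul (MulAut.conj a) (U c)).toEquiv.symm
    · exact Subgroup.pointwise_smul_le_pointwise_smul_iff.2 (h2 c c' h)
    · exact Subgroup.pointwise_smul_le_pointwise_smul_iff.2 (h3 c)
  have hl : ∀ (a : G) (R : Subgroup G), MulAut.conj a⁻¹ • (MulAut.conj a • R) = R := by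
    intro a R
    rw [← mul_smul, ← map_mul, inv_mul_cancel, map_one, one_smul]
  have hr : ∀ (a : G) (R : Subgroup G), MulAut.conj a • (MulAut.conj a⁻¹ • R) = R := by
    intro a R
    rw [← mul_smul, ← map_mul, mul_inv_cancel, map_one, one_smul]
  rw [NN, NN]
  apply Nat.card_congr
  refine ⟨fun U => ⟨fun c => MulAut.conj a⁻¹ • U.1 c, ?_⟩,
    fun U => ⟨fun c => MulAut.conj a • U.1 c, key a R U.1 U.2⟩, ?_, ?_⟩
  · have := key a⁻¹ _ U.1 U.2
    rwa [hl] at this
  · rintro ⟨U, hU⟩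
    apply Subtype.ext
    funext c
    exact hr a (U c)
  · rintro ⟨U, hU⟩
    apply Subtype.ext
    funext c
    exact hl a (U c)

theorem main (p s t n : ℕ) [hp : Fact p.Prime] (hG : Nat.card G = p ^ t * n) (hn : ¬ p ∣ n)
    (hs : s ≤ t) (J : Finset ℕ) (hJ : ∀ c ∈ J, c ≤ s) :
    ((p ^ J.card : ℕ) : ℤ) ∣ bt p s J (⊤ : Subgroup G) := by
  classical
  have hFin := Fintype.ofFinite (Subgroup G)
  have hS : bt p s J (⊤ : Subgroup G) =
      ∑ R ∈ PS p (⊤ : Subgroup G), wt (PS p ⊤) R * bt p s J R := by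
    apply bt_sum J ⊤ (PS p ⊤) (fun R _ => le_top)
    intro I hI U hU
    rw [mem_PS]
    refine ⟨le_top, ?_⟩
    rcases iSup_chain I ⊤ U hU with ⟨-, h⟩ | ⟨c, h⟩
    · rw [h]; exact IsPGroup.of_bot
    · rw [h]
      exact IsPGroup.iff_card.2 ⟨_, hU.1 c⟩
  rw [hS]
  have hn0 : n ≠ 0 := by rintro rfl; exact hn (dvd_zero p)
  have hfac : (Nat.card G).factorization p = t := by
    rw [hG, Nat.factorization_mul (pow_ne_zero _ hp.out.ne_zero) hn0, Finsupp.add_apply,
      hp.out.factorization_pow, Finsupp.single_eq_same,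
      Nat.factorization_eq_zero_of_not_dvd hn, add_zero]
  have htop : Nat.card (⊤ : Subgroup G) = Nat.card G := Subgroup.card_top
  let _ := cact (⊤ : Subgroup G)
  apply dvd_sum_orbits (A := (⊤ : Subgroup G)) _ _ _ _ rfl
  · intro a R hR
    exact PS_conj (⊤ : Subgroup G) (a : G) a.2 R hR
  · intro a R hR
    change wt (PS p ⊤) (MulAut.conj (a : G) • R) * bt p s J (MulAut.conj (a : G) • R) = _
    rw [wt_conj (⊤ : Subgroup G) (a : G) a.2 R hR]
    congr 1
    rw [bt, bt]
    apply Finset.sum_congr rfl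
    intro I _
    rw [NN_conj]
  · intro R hR
    have hR' := mem_PS.1 hR
    obtain ⟨r, hr⟩ := IsPGroup.iff_card.1 hR'.2
    have hrt : r ≤ t := by
      have h1 : p ^ r ∣ Nat.card G := by rw [← hr]; exact Subgroup.card_subgroup_dvd_card R
      rw [← hfac]
      exact (hp.out.pow_dvd_iff_le_factorization Nat.card_pos.ne').1 h1
    have h1 := brown p _ (⊤ : Subgroup G) rfl R hR
    have h2 := card_orbit_mul (⊤ : Subgroup G) R
    change Nat.card (MulAction.orbit (⊤ : Subgroup G) R) * _ = _ at h2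
    set o := Nat.card (MulAction.orbit (⊤ : Subgroup G) R) with ho
    -- `p^t` divides `o * |R| * wt R`
    have h3 : ((p ^ t : ℕ) : ℤ) ∣ (o : ℤ) * ((p ^ r : ℕ) * wt (PS p ⊤) R) := by
      have ho0 : o ≠ 0 := by
        intro h0
        rw [h0, zero_mul] at h2
        exact Nat.card_pos.ne' h2.symm
      have hm0 : Nat.card ((⊤ : Subgroup G) ⊓ nz R : Subgroup G) ≠ 0 := Nat.card_pos.ne'
      have h4 : p ^ t ∣ o * pp p (Nat.card ((⊤ : Subgroup G) ⊓ nz R : Subgroup G)) := by
        have h5 : p ^ t = pp p (Nat.card (⊤ : Subgroup G)) := by rw [htop, pp, hfac]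
        rw [h5, ← h2, pp, Nat.factorization_mul ho0 hm0, Finsupp.add_apply, pow_add]
        exact Nat.mul_dvd_mul (pp_dvd p _) dvd_rfl
      have h6 : ((p ^ t : ℕ) : ℤ) ∣
          (o : ℤ) * (pp p (Nat.card ((⊤ : Subgroup G) ⊓ nz R : Subgroup G)) : ℕ) := by
        exact_mod_cast h4
      rw [hr] at h1
      exact h6.trans (mul_dvd_mul_left _ h1)
    have h4 : ((p ^ (t - r) : ℕ) : ℤ) ∣ (o : ℤ) * wt (PS p ⊤) R := by
      have h5 : p ^ t = p ^ r * p ^ (t - r) := by rw [← pow_add]; congr 1; omega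
      have h6 : (o : ℤ) * ((p ^ r : ℕ) * wt (PS p ⊤) R) =
          ((p ^ r : ℕ) : ℤ) * ((o : ℤ) * wt (PS p ⊤) R) := by ring
      rw [h5, h6] at h3
      push_cast at h3 ⊢
      exact (mul_dvd_mul_iff_left (pow_ne_zero r (by exact_mod_cast hp.out.ne_zero))).1 h3
    have h5 : ((p ^ (J.filter (fun c => s - c ≤ r)).card : ℕ) : ℤ) ∣ bt p s J R := by
      rw [bt_eq hp.out.one_lt J R r hr]
      apply bt_pgroup p s r R hr
      intro c hc
      rw [Finset.mem_filter] at hc
      exact ⟨hJ c hc.1, hc.2⟩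
    have h6 : J.card ≤ (J.filter (fun c => s - c ≤ r)).card + (t + 1 - 1 - r) := by
      apply card_filter_le s (t + 1) r J
      intro c hc
      have := hJ c hc
      omega
    have h7 : ((p ^ J.card : ℕ) : ℤ) ∣ ((p ^ (t - r) : ℕ) : ℤ) *
        ((p ^ (J.filter (fun c => s - c ≤ r)).card : ℕ) : ℤ) := by
      have h8 : p ^ J.card ∣ p ^ (t - r) * p ^ (J.filter (fun c => s - c ≤ r)).card := by
        rw [← pow_add]
        exact pow_dvd_pow p (by omega)
      exact_mod_cast h8
    have h8 := h7.trans (mul_dvd_mul h4 h5)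
    rw [mul_assoc] at h8
    exact h8

end

theorem result (G : Type) [Group G] [Finite G] (p t n s : ℕ) (hp : p.Prime)
    (hG : Nat.card G = p ^ t * n) (hn : ¬ p ∣ n) (hs : s ≤ t) (J : Finset ℕ) (_ : J.Nonempty)
    (hJ : ∀ c ∈ J, c ≤ s) : altSum G p s J ≡ 1 [ZMOD ((p : ℤ) ^ J.card)] := by
  classical
  have : Fact p.Prime := ⟨hp⟩
  have h1 := main (G := G) p s t n hG hn hs J hJ
  have h2 : altSum G p s J = 1 - bt p s J (⊤ : Subgroup G) := by
    have h3 : bt p s J (⊤ : Subgroup G) = 1 +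
        ∑ I ∈ J.powerset.filter (fun I => I ≠ ∅), (-1) ^ I.card * (NN p s I (⊤ : Subgroup G) : ℤ) := by
      rw [bt, ← Finset.sum_filter_add_sum_filter_not J.powerset (fun I => I = ∅)]
      congr 1
      have h4 : J.powerset.filter (fun I => I = ∅) = {∅} := by
        ext I
        simp only [Finset.mem_filter, Finset.mem_powerset, Finset.mem_singleton]
        constructor
        · exact fun h => h.2
        · rintro rfl; exact ⟨Finset.empty_subset _, rfl⟩
      rw [h4, Finset.sum_singleton, Finset.card_empty, pow_zero, one_mul, NN]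
      have h5 : Nat.card {U : (∅ : Finset ℕ) → Subgroup G // IsCh p s ∅ ⊤ U} = 1 := by
        have hE : IsEmpty (∅ : Finset ℕ) := ⟨fun x => absurd x.2 (Finset.notMem_empty _)⟩
        rw [Nat.card_eq_one_iff_unique]
        refine ⟨⟨fun a b => Subtype.ext (funext fun c => (hE.false c).elim)⟩,
          ⟨⟨fun c => (hE.false c).elim, fun c => (hE.false c).elim,
            fun c => (hE.false c).elim, fun c => (hE.false c).elim⟩⟩⟩
      rw [h5]; rfl
    rw [h3, altSum]
    have h6 : ∑ I ∈ J.powerset.filter (fun I => I ≠ ∅),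
        (-1 : ℤ) ^ (I.card + 1) * (chainCount G p s I : ℤ) =
        - ∑ I ∈ J.powerset.filter (fun I => I ≠ ∅),
          (-1) ^ I.card * (NN p s I (⊤ : Subgroup G) : ℤ) := by
      rw [← Finset.sum_neg_distrib]
      apply Finset.sum_congr rfl
      intro I _
      rw [chainCount_eq, pow_succ]
      ring
    rw [h6]
    ring
  rw [h2]
  apply Int.ModEq.symm
  rw [Int.modEq_iff_dvd]
  have h3 : (1 - bt p s J (⊤ : Subgroup G)) - 1 = - bt p s J (⊤ : Subgroup G) := by ring
  rw [h3, dvd_neg]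
  push_cast at h1
  exact h1

end Pool.Agent.Results.MP_3e56e8_al.AllIndexSets
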